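import Pool.Agent.W5h6.HS.Cpt
import Pool.Agent.TH845.KN.B2

/-! # Companions of the values of elliptic forms, and lower bounds -/

set_option autoImplicit false

namespace Pool.Agent.W5h6.HS

open Polynomial Filter MeasureTheory Topology Pool.Agent.H261R2.CM Pool.Agent.TH845.KN

noncomputable section

theorem isRelPrime_pow_right {R : Type*} [CommRing R] [IsDomain R] [UniqueFactorizationMonoid R]
    {a b : R} (ha : a ≠ 0) (h : IsRelPrime a b) (n : ℕ) : IsRelPrime a (b ^ n) := by
  induction n with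
  | zero => simpa using isRelPrime_one_right
  | succ n ih =>
    intro d hd1 hd2
    have hd0 : d ≠ 0 := by
      rintro rfl
      exact ha (zero_dvd_iff.mp hd1)
    rw [pow_succ] at hd2
    have h1 : IsRelPrime d (b ^ n) := fun x hx1 hx2 => ih (hx1.trans hd1) hx2
    have h2 : d ∣ b := h1.dvd_of_dvd_mul_left hd2
    exact h hd1 h2

variable {ι : Type} [Fintype ι]

/-- the generic linear combination of a tuple, with new variables as coefficients -/
def gen {k r : ℕ} (P : Fin r → MvPolynomial (Fin k) ℤ) : MvPolynomial (Fin (k + r)) ℤ :=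
  ∑ i, MvPolynomial.X (Fin.natAdd k i) * MvPolynomial.rename (Fin.castAdd r) (P i)

theorem relPrime_gen {k r : ℕ} (P : Fin r → MvPolynomial (Fin k) ℤ) (hP : Cop P)
    (F : MvPolynomial (Fin k) ℤ) (hF : F ≠ 0) :
    IsRelPrime (MvPolynomial.rename (Fin.castAdd r) F) (gen P) := by
  classical
  intro D hD1 hD2
  have hinj : Function.Injective (Fin.castAdd r : Fin k → Fin (k + r)) := Fin.castAdd_injective k r
  have hF' := ren_ne_zero (Fin.castAdd r) hinj hF
  obtain ⟨W, hW⟩ := hD1
  have hD0 : D ≠ 0 := by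
    rintro rfl
    rw [zero_mul] at hW
    exact hF' hW
  have hW0 : W ≠ 0 := by
    rintro rfl
    rw [mul_zero] at hW
    exact hF' hW
  have hdeg : ∀ i : Fin r, D.degreeOf (Fin.natAdd k i) = 0 := by
    intro i
    have h1 := degreeOf_ren (Fin.castAdd r) F (Fin.natAdd k i) (by
      intro j hj
      have := congrArg Fin.val hj
      simp only [Fin.val_castAdd, Fin.val_natAdd] at this
      omega)
    rw [hW, MvPolynomial.degreeOf_mul_eq hD0 hW0] at h1
    omega
  obtain ⟨D', hD'⟩ := MvPolynomial.exists_rename_eq_of_vars_subset_range D (Fin.castAdd r) hinj (by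
    intro i hi
    rw [Finset.mem_coe, MvPolynomial.mem_vars_iff_mem_support] at hi
    obtain ⟨d, hd, hdi⟩ := hi
    rw [Finsupp.mem_support_iff] at hdi
    induction i using Fin.addCases with
    | left i => exact ⟨i, rfl⟩
    | right i =>
      exfalso
      have h1 := MvPolynomial.le_degreeOf_of_mem_support (Fin.natAdd k i) hd
      rw [hdeg i] at h1
      omega)
  subst hD'
  have h3 : ∀ i, D' ∣ P i := by
    intro i
    set ψ : MvPolynomial (Fin (k + r)) ℤ →ₐ[ℤ] MvPolynomial (Fin k) ℤ :=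
      MvPolynomial.aeval (Fin.addCases (fun j => MvPolynomial.X j)
        (fun j => if j = i then 1 else 0)) with hψ
    have h4 : ∀ A : MvPolynomial (Fin k) ℤ, ψ (MvPolynomial.rename (Fin.castAdd r) A) = A := by
      intro A
      rw [hψ, MvPolynomial.aeval_rename]
      have : (Fin.addCases (fun j => MvPolynomial.X j) (fun j => if j = i then 1 else 0) ∘
          Fin.castAdd r : Fin k → MvPolynomial (Fin k) ℤ) = MvPolynomial.X := by
        funext j
        simp
      rw [this, MvPolynomial.aeval_X_left_apply]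
    have h5 : ψ (gen P) = P i := by
      unfold gen
      rw [map_sum]
      simp only [map_mul, h4]
      have h6 : ∀ j : Fin r, ψ (MvPolynomial.X (Fin.natAdd k j)) = if j = i then 1 else 0 := by
        intro j
        rw [hψ, MvPolynomial.aeval_X]
        simp
      simp [h6]
    have h7 := map_dvd ψ hD2
    rwa [h4, h5] at h7
  exact (hP D' h3).map (MvPolynomial.rename (Fin.castAdd r))

/-- The measures of the values of elliptic forms at coprime tuples have companions. -/
theorem mem_LL_of_bound {k r : ℕ} (hk : 1 ≤ k) (Φ : MvPolynomial (Fin r ⊕ Fin r) ℤ) {a b : ℕ}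
    (h : BiHom Φ a b) (hE : Ell Φ) (κ : ℝ) (hκ : 1 ≤ κ)
    (hb : ∀ x : Fin r → ℂ, (∑ i, ‖x i‖) ^ (a + b) ≤ κ * ‖phi Φ x‖)
    (P : Fin r → MvPolynomial (Fin k) ℤ) (hP : Cop P) :
    mM (Fk Φ P) ∈ LL (Real.log κ + Real.log (mM (Fk Φ P))) := by
  have hF := Fk_ne_zero Φ h hE P hP.exists_ne
  set F := Fk Φ P with hFdef
  have hinj : Function.Injective (Fin.castAdd r : Fin k → Fin (k + r)) := Fin.castAdd_injective k r
  have hF' := ren_ne_zero (Fin.castAdd r) hinj hF
  have hrel := isRelPrime_pow_right hF' (relPrime_gen P hP F hF) (a + b)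
  have hG0 : gen P ^ (a + b) ≠ 0 := by
    intro h0
    rw [h0] at hrel
    by_cases hab : a + b = 0
    · rw [hab, pow_zero] at h0
      exact one_ne_zero h0
    · have h1 : gen P = 0 := pow_eq_zero_iff hab |>.mp h0
      -- `gen P = 0` is impossible
      have h3 : IsUnit (0 : MvPolynomial (Fin k) ℤ) := by
        have h4 := relPrime_gen P hP (2 : MvPolynomial (Fin k) ℤ) (by
          intro h5
          have h6 := congrArg (MvPolynomial.eval (fun _ => (0 : ℤ))) h5
          rw [map_ofNat, map_zero] at h6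
          norm_num at h6)
        rw [h1] at h4
        have h5 : IsUnit (MvPolynomial.rename (Fin.castAdd r) (2 : MvPolynomial (Fin k) ℤ)) :=
          h4 dvd_rfl (dvd_zero _)
        have h6 := h5.map (MvPolynomial.eval (fun _ : Fin (k + r) => (0 : ℤ)))
        rw [MvPolynomial.eval_rename] at h6
        simp only [map_ofNat] at h6
        exact absurd h6 (by rw [Int.isUnit_iff]; norm_num)
      exact not_isUnit_zero h3
  refine ⟨k + r, by omega, MvPolynomial.rename (Fin.castAdd r) F, gen P ^ (a + b), hF', hG0, hrel, ?_,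
    (mM_ren _ hinj F).symm⟩
  have hκ0 : 0 ≤ Real.log κ := Real.log_nonneg hκ
  have hint1 : Integrable (fun t => Real.log κ + Real.log ‖tv (MvPolynomial.rename (Fin.castAdd r) F) t‖)
      ((volume : Measure (Fin (k + r) → ℝ)).restrict (Set.Icc (0 : Fin (k + r) → ℝ) 1)) :=
    (integrable_const _).add (F_integrable hF')
  have hval : (∫ t in Set.Icc (0 : Fin (k + r) → ℝ) 1,
      (Real.log κ + Real.log ‖tv (MvPolynomial.rename (Fin.castAdd r) F) t‖)) =
      Real.log κ + Real.log (mM F) := by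
    rw [integral_add (integrable_const _) (F_integrable hF'), ← log_mM, mM_ren _ hinj]
    congr 1
    rw [setIntegral_const]
    simp [measureReal_def, Real.volume_Icc_pi_toReal]
  rw [← hval]
  unfold mx
  refine setIntegral_mono_ae_restrict ?_ hint1 ?_
  · have h7 := K4_intk thM thM_cont thM_ge (MvPolynomial.rename (Fin.castAdd r) F)
      (gen P ^ (a + b)) hF'
    have h8 : ∀ t : Fin (k + r) → ℝ, Real.log (max ‖tv (MvPolynomial.rename (Fin.castAdd r) F) t‖
        ‖tv (gen P ^ (a + b)) t‖) = 1 / 2 * Real.log (thM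
          ‖tv (MvPolynomial.rename (Fin.castAdd r) F) t‖ ‖tv (gen P ^ (a + b)) t‖) := by
      intro t
      rw [thM_log (norm_nonneg _) (norm_nonneg _)]
      ring
    simp only [h8]
    exact h7.const_mul (1 / 2)
  · filter_upwards [F_zero_null hF'] with t ht
    set s : Fin k → ℝ := fun j => t (Fin.castAdd r j) with hs
    have h1 : ‖tv (MvPolynomial.rename (Fin.castAdd r) F) t‖ = ‖phi Φ fun i => tv (P i) s‖ := by
      rw [tv_ren, hFdef, norm_Fk Φ h]
    have h2 : ‖tv (gen P ^ (a + b)) t‖ ≤ (∑ i, ‖tv (P i) s‖) ^ (a + b) := by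
      have h3 : tv (gen P ^ (a + b)) t = tv (gen P) t ^ (a + b) := by simp [tv]
      rw [h3, norm_pow]
      refine pow_le_pow_left₀ (norm_nonneg _) ?_ _
      have h4 : tv (gen P) t = ∑ i, ez (t (Fin.natAdd k i)) * tv (P i) s := by
        unfold gen
        have h5 : ∀ i, tv (MvPolynomial.rename (Fin.castAdd r) (P i)) t = tv (P i) s := fun i =>
          tv_ren _ _ _
        simp only [← h5]
        simp [tv, ez]
      rw [h4]
      refine (norm_sum_le _ _).trans (Finset.sum_le_sum fun i _ => ?_)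
      rw [norm_mul, D_norm_ez, one_mul]
    have h3 := hb fun i => tv (P i) s
    have h4 : 0 < ‖tv (MvPolynomial.rename (Fin.castAdd r) F) t‖ := norm_pos_iff.mpr ht
    have hκ' : (0 : ℝ) < κ := by linarith
    rw [← Real.log_mul hκ'.ne' h4.ne']
    refine Real.log_le_log (lt_max_of_lt_left h4) (max_le ?_ ?_)
    · nlinarith
    · rw [h1]
      exact h2.trans h3

theorem exists_kappa {r : ℕ} (hr : 1 ≤ r) (Φ : MvPolynomial (Fin r ⊕ Fin r) ℤ) {a b : ℕ}
    (h : BiHom Φ a b) (hE : Ell Φ) : ∃ κ : ℝ, 1 ≤ κ ∧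
      ∀ x : Fin r → ℂ, (∑ i, ‖x i‖) ^ (a + b) ≤ κ * ‖phi Φ x‖ := by
  have : Nonempty (Fin r) := ⟨⟨0, hr⟩⟩
  obtain ⟨c, hc, hb⟩ := phi_lower Φ h hE
  refine ⟨max 1 ((r : ℝ) ^ (a + b) / c), le_max_left _ _, fun x => ?_⟩
  have h1 : (∑ i, ‖x i‖) ^ (a + b) ≤ ((r : ℝ) * ‖x‖) ^ (a + b) := by
    refine pow_le_pow_left₀ (Finset.sum_nonneg fun _ _ => norm_nonneg _) ?_ _
    calc (∑ i, ‖x i‖) ≤ ∑ _i : Fin r, ‖x‖ := Finset.sum_le_sum fun i _ => norm_le_pi_norm x i
      _ = r * ‖x‖ := by simp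
  calc (∑ i, ‖x i‖) ^ (a + b) ≤ (r : ℝ) ^ (a + b) * ‖x‖ ^ (a + b) := by rwa [mul_pow] at h1
    _ = ((r : ℝ) ^ (a + b) / c) * (c * ‖x‖ ^ (a + b)) := by field_simp
    _ ≤ ((r : ℝ) ^ (a + b) / c) * ‖phi Φ x‖ := mul_le_mul_of_nonneg_left (hb x) (by positivity)
    _ ≤ max 1 ((r : ℝ) ^ (a + b) / c) * ‖phi Φ x‖ :=
      mul_le_mul_of_nonneg_right (le_max_right _ _) (norm_nonneg _)

/-- tuples whose common divisors have measure one -/
theorem reduce_ess {k : ℕ} (Φ : MvPolynomial (ι ⊕ ι) ℤ) {a b : ℕ} (h : BiHom Φ a b) (hE : Ell Φ)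
    (P : ι → MvPolynomial (Fin k) ℤ) (hP : ∀ D, (∀ i, D ∣ P i) → mM D = 1) :
    ∃ Q : ι → MvPolynomial (Fin k) ℤ, Cop Q ∧ mM (Fk Φ P) = mM (Fk Φ Q) ∧
      (∀ i, mM (P i) = mM (Q i)) ∧ ∀ i, P i = 0 ↔ Q i = 0 := by
  have hne : ∃ i, P i ≠ 0 := by
    by_contra hcon
    push Not at hcon
    have h1 := hP 2 fun i => by rw [hcon i]; exact dvd_zero _
    have h2 : mM (2 : MvPolynomial (Fin k) ℤ) = 2 := by
      unfold mM
      have h3 : ∀ t, tv (2 : MvPolynomial (Fin k) ℤ) t = 2 := fun t => by simp [tv]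
      simp only [h3]
      rw [setIntegral_const]
      simp only [measureReal_def, Real.volume_Icc_pi_toReal (show (0 : Fin k → ℝ) ≤ 1 from fun _ => zero_le_one)]
      simp [Real.exp_log]
    rw [h2] at h1
    norm_num at h1
  obtain ⟨G, Q, hG, hGQ, hQ⟩ := exists_reduced P hne
  have hG1 : mM G = 1 := hP G fun i => ⟨Q i, hGQ i⟩
  have hlogG : (∫ t in Set.Icc (0 : Fin k → ℝ) 1, Real.log ‖tv G t‖) = 0 := by
    rw [← log_mM, hG1, Real.log_one]
  refine ⟨Q, hQ, ?_, ?_, ?_⟩
  · have hFQ := Fk_ne_zero Φ h hE Q hQ.exists_ne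
    unfold mM
    congr 1
    have h1 : (∫ t in Set.Icc (0 : Fin k → ℝ) 1, Real.log ‖tv (Fk Φ P) t‖) =
        ∫ t in Set.Icc (0 : Fin k → ℝ) 1, (((a + b : ℕ) : ℝ) * Real.log ‖tv G t‖ +
          Real.log ‖tv (Fk Φ Q) t‖) := by
      refine integral_congr_ae ?_
      filter_upwards [F_zero_null hG, F_zero_null hFQ] with t h2 h3
      rw [norm_Fk Φ h] at *
      have h4 : (fun i => tv (P i) t) = fun i => tv G t * tv (Q i) t := by
        funext i
        rw [hGQ i]
        simp [tv]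
      have h5 : phi Φ (fun i => tv (Q i) t) ≠ 0 := by
        rw [← norm_ne_zero_iff, ← norm_Fk Φ h]
        exact norm_ne_zero_iff.mpr h3
      rw [h4, phi_scale Φ h, Real.log_mul (pow_ne_zero _ (norm_ne_zero_iff.mpr h2))
        (norm_ne_zero_iff.mpr h5), Real.log_pow, norm_Fk Φ h]
    rw [h1, integral_add ((F_integrable hG).const_mul _) (F_integrable hFQ), integral_const_mul,
      hlogG, mul_zero, zero_add]
  · intro i
    by_cases hi : Q i = 0
    · rw [hGQ i, hi, mul_zero]
    · rw [hGQ i, mM_mul G (Q i) hG hi, hG1, one_mul]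
  · intro i
    rw [hGQ i, mul_eq_zero, or_iff_right hG]

end

end Pool.Agent.W5h6.HS
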