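import Pool.Agent.W5h6.HS.Form

/-! # Limits of coprime tuples -/

set_option autoImplicit false

namespace Pool.Agent.W5h6.HS

open Polynomial Filter MeasureTheory Topology Pool.Agent.H261R2.CM

noncomputable section

theorem Cop.exists_ne {ι R : Type*} [CommSemiring R] [Nontrivial R] {A : ι → R} (hA : Cop A) :
    ∃ i, A i ≠ 0 := by
  by_contra hcon
  push Not at hcon
  exact not_isUnit_zero (hA 0 fun i => by rw [hcon i])

section quot

variable {R : Type*} [CommRing R] [IsDomain R] [UniqueFactorizationMonoid R]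

/-- a family proportional to a family without common divisors is a multiple of it -/
theorem exists_quot {ι : Type*} {A S : ι → R} (hA : Cop A) (hS : ∃ i, S i ≠ 0)
    (h : ∀ i j, S i * A j = S j * A i) : ∃ Q : R, Q ≠ 0 ∧ ∀ i, S i = Q * A i := by
  obtain ⟨i0, hi0⟩ := hA.exists_ne
  have h1 : A i0 ∣ S i0 := by
    refine dvd_of_cop hA hi0 fun i => ?_
    rw [h i0 i]
    exact dvd_mul_left _ _
  obtain ⟨Q, hQ⟩ := h1
  have h2 : ∀ i, S i = Q * A i := by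
    intro i
    have h3 := h i i0
    rw [hQ] at h3
    apply mul_right_cancel₀ hi0
    rw [h3]
    ring
  refine ⟨Q, ?_, h2⟩
  rintro rfl
  obtain ⟨i, hi⟩ := hS
  exact hi (by rw [h2 i, zero_mul])

end quot

variable {ι : Type} [Fintype ι]

/-- The measures of the values of an elliptic form along tuples proportional to specialisations of a
fixed coprime tuple. -/
theorem tuple_limit {k : ℕ} (Φ : MvPolynomial (ι ⊕ ι) ℤ) {a b : ℕ} (h : BiHom Φ a b) (hE : Ell Φ)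
    (R : ι → MvPolynomial (Fin k) ℤ) (hR : Cop R) (𝒰 : Ultrafilter ℕ) (e : ℕ → Fin k → ℕ)
    (he : AsympIndep (𝒰 : Filter ℕ) e) (A : ℕ → ι → ℤ[X]) (hA : ∀ n, Cop (A n))
    (hrel : ∀ᶠ n in (𝒰 : Filter ℕ), ∀ i j,
      spec (e n) (R i) * A n j = spec (e n) (R j) * A n i) :
    Tendsto (fun n => m1 (F1 Φ (A n))) (𝒰 : Filter ℕ) (𝓝 (mM (Fk Φ R))) := by
  classical
  obtain ⟨i0, hi0⟩ := hR.exists_ne
  have hsp := spec_ne_zero _ e he (R i0) hi0
  have hex : ∀ n, ∃ Q : ℤ[X], (∀ i j, spec (e n) (R i) * A n j = spec (e n) (R j) * A n i) →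
      spec (e n) (R i0) ≠ 0 → Q ≠ 0 ∧ ∀ i, spec (e n) (R i) = Q * A n i := by
    intro n
    by_cases h1 : (∀ i j, spec (e n) (R i) * A n j = spec (e n) (R j) * A n i) ∧
        spec (e n) (R i0) ≠ 0
    · obtain ⟨Q, hQ⟩ := exists_quot (S := fun i => spec (e n) (R i)) (hA n) ⟨i0, h1.2⟩ h1.1
      exact ⟨Q, fun _ _ => hQ⟩
    · exact ⟨0, fun h2 h3 => absurd ⟨h2, h3⟩ h1⟩
  choose Q hQ using hex
  have hQ' : ∀ᶠ n in (𝒰 : Filter ℕ), Q n ≠ 0 ∧ ∀ i, spec (e n) (R i) = Q n * A n i := by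
    filter_upwards [hrel, hsp] with n h1 h2
    exact hQ n h1 h2
  have hlim := common_lim R hR 𝒰 e he Q (hQ'.mono fun n hn i => ⟨A n i, hn.2 i⟩)
  have h1 := m1_lim (𝒰 : Filter ℕ) e he (Fk Φ R) (Fk_ne_zero Φ h hE R ⟨i0, hi0⟩)
  have h2 : Tendsto (fun n => Real.exp (-(((a + b : ℕ) : ℝ) * Real.log (m1 (Q n)))))
      (𝒰 : Filter ℕ) (𝓝 1) := by
    have h3 := (Real.continuous_exp.tendsto _).comp (hlim.const_mul ((a + b : ℕ) : ℝ)).neg
    rw [mul_zero, neg_zero, Real.exp_zero] at h3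
    exact h3
  have h3 := h1.mul h2
  rw [mul_one] at h3
  refine h3.congr' ?_
  filter_upwards [hQ', hsp] with n hn hn0
  have h4 : 0 < m1 (Q n) := lt_of_lt_of_le one_pos (I1_one_le_m1 hn.1)
  rw [m1_spec_Fk Φ h hE R (e n) ⟨i0, hn0⟩, m1_F1_mul Φ h hE (A n) _ (hA n).exists_ne (Q n) hn.1 hn.2,
    Real.exp_neg, Real.exp_nat_mul, Real.exp_log h4]
  have h5 : m1 (Q n) ^ (a + b) ≠ 0 := by positivity
  field_simp

/-- Approximation of a tuple in several variables by tuples in one variable. -/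
theorem approx_tuple {k : ℕ} (Φ : MvPolynomial (ι ⊕ ι) ℤ) {a b : ℕ} (h : BiHom Φ a b) (hE : Ell Φ)
    (P : ι → MvPolynomial (Fin k) ℤ) (hP : Cop P) (ε : ℝ) (hε : 0 < ε) :
    ∃ A : ι → ℤ[X], Cop A ∧ |m1 (F1 Φ A) - mM (Fk Φ P)| < ε := by
  classical
  obtain ⟨i0, hi0⟩ := hP.exists_ne
  set e : ℕ → Fin k → ℕ := fun (n : ℕ) (i : Fin k) => n ^ (i : ℕ) with he
  have he1 : AsympIndep (hyperfilter ℕ : Filter ℕ) e := fun s hs =>
    I2_hyper_le (asympIndep_pow k s hs)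
  have hex : ∀ n, ∃ A : ι → ℤ[X], Cop A ∧ (spec (e n) (P i0) ≠ 0 →
      ∀ i j, spec (e n) (P i) * A j = spec (e n) (P j) * A i) := by
    intro n
    by_cases h1 : spec (e n) (P i0) ≠ 0
    · obtain ⟨G, A, _, h2, h3⟩ := exists_reduced (fun i => spec (e n) (P i)) ⟨i0, h1⟩
      refine ⟨A, h3, fun _ i j => ?_⟩
      have h4 := h2 i
      have h5 := h2 j
      rw [h4, h5]
      ring
    · exact ⟨fun _ => 1, fun D hD => isUnit_of_dvd_one (hD i0), fun h2 => absurd h2 h1⟩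
  choose A hA hrel using hex
  have hrel' : ∀ᶠ n in (hyperfilter ℕ : Filter ℕ), ∀ i j,
      spec (e n) (P i) * A n j = spec (e n) (P j) * A n i := by
    filter_upwards [spec_ne_zero _ e he1 (P i0) hi0] with n h1
    exact hrel n h1
  have hl := tuple_limit Φ h hE P hP (hyperfilter ℕ) e he1 A hA hrel'
  obtain ⟨n, hn⟩ := ((Metric.tendsto_nhds.mp hl) ε hε).exists
  rw [Real.dist_eq] at hn
  exact ⟨A n, hA n, hn⟩

/-- The heights of the pairs of a tuple are bounded by the measure of the value of the form. -/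
theorem mx1_le [Nonempty ι] (Φ : MvPolynomial (ι ⊕ ι) ℤ) {a b : ℕ} (h : BiHom Φ a b) (hE : Ell Φ)
    (hab : 0 < a + b) : ∃ C : ℝ, ∀ (A : ι → ℤ[X]) (i j : ι), A i ≠ 0 → A j ≠ 0 →
      mx1 (A i) (A j) ≤ C + Real.log (m1 (F1 Φ A)) / ((a + b : ℕ) : ℝ) := by
  obtain ⟨c, hc, hbound⟩ := phi_lower Φ h hE
  have hm : (0 : ℝ) < ((a + b : ℕ) : ℝ) := by exact_mod_cast hab
  refine ⟨- Real.log c / ((a + b : ℕ) : ℝ), fun A i j hi hj => ?_⟩
  have h1 : mx1 (A i) (A j) = ∫ t in (0:ℝ)..1, (1 / 2) * Real.log (thM ‖ev1 (A i) t‖ ‖ev1 (A j) t‖) := by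
    unfold mx1
    refine intervalIntegral.integral_congr fun t _ => ?_
    rw [thM_log (norm_nonneg _) (norm_nonneg _)]
    ring
  have h2 : - Real.log c / ((a + b : ℕ) : ℝ) + Real.log (m1 (F1 Φ A)) / ((a + b : ℕ) : ℝ) =
      ∫ t in (0:ℝ)..1, ((- Real.log c + Real.log ‖ev1 (F1 Φ A) t‖) / ((a + b : ℕ) : ℝ)) := by
    rw [intervalIntegral.integral_div, intervalIntegral.integral_add intervalIntegrable_const
      (D_intervalIntegrable_log _), ← D_log_m1]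
    simp [add_div]
  rw [h1, h2]
  refine intervalIntegral.integral_mono_ae zero_le_one
    ((K4_int1 thM thM_cont thM_ge (A i) (A j) hi).const_mul _)
    ((intervalIntegrable_const.add (D_intervalIntegrable_log _)).div_const _) ?_
  filter_upwards [D_ae_ne (A i) hi] with t ht
  have h3 : (1 / 2) * Real.log (thM ‖ev1 (A i) t‖ ‖ev1 (A j) t‖) =
      Real.log (max ‖ev1 (A i) t‖ ‖ev1 (A j) t‖) := by
    rw [thM_log (norm_nonneg _) (norm_nonneg _)]
    ring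
  rw [h3, norm_F1 Φ h, le_div_iff₀ hm]
  set x : ι → ℂ := fun i => ev1 (A i) t with hx
  have hpos : 0 < max ‖ev1 (A i) t‖ ‖ev1 (A j) t‖ := lt_max_of_lt_left (norm_pos_iff.mpr ht)
  have hle : max ‖ev1 (A i) t‖ ‖ev1 (A j) t‖ ≤ ‖x‖ :=
    max_le (norm_le_pi_norm x i) (norm_le_pi_norm x j)
  have hx0 : 0 < ‖x‖ := lt_of_lt_of_le hpos hle
  have h4 := hbound x
  have h5 : Real.log c + ((a + b : ℕ) : ℝ) * Real.log ‖x‖ ≤ Real.log ‖phi Φ x‖ := by
    have h6 := Real.log_le_log (by positivity) h4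
    rwa [Real.log_mul hc.ne' (by positivity), Real.log_pow] at h6
  have h6 : Real.log (max ‖ev1 (A i) t‖ ‖ev1 (A j) t‖) ≤ Real.log ‖x‖ := Real.log_le_log hpos hle
  have h7 : Real.log (max ‖ev1 (A i) t‖ ‖ev1 (A j) t‖) * ((a + b : ℕ) : ℝ) ≤
      Real.log ‖x‖ * ((a + b : ℕ) : ℝ) := mul_le_mul_of_nonneg_right h6 hm.le
  linarith

end

end Pool.Agent.W5h6.HS
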