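import Pool.Agent.W5h6.HS.Comp

/-! # Sums of hermitian squares -/

set_option autoImplicit false

namespace Pool.Agent.W5h6.HS

open Polynomial Filter MeasureTheory Topology Pool.Agent.H261R2.CM Pool.Agent.TH845.KN
open scoped ComplexConjugate

noncomputable section

/-- the form `∑ x_i y_i` -/
def sq (ι : Type) [Fintype ι] : MvPolynomial (ι ⊕ ι) ℤ :=
  ∑ i, MvPolynomial.X (Sum.inl i) * MvPolynomial.X (Sum.inr i)

variable {ι : Type} [Fintype ι]

theorem phi_sq (x : ι → ℂ) : phi (sq ι) x = ((∑ i, ‖x i‖ ^ 2 : ℝ) : ℂ) := by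
  unfold phi sq
  simp only [map_sum, map_mul, MvPolynomial.map_X, MvPolynomial.eval_X, Sum.elim_inl, Sum.elim_inr]
  push_cast
  refine Finset.sum_congr rfl fun i _ => ?_
  rw [Complex.mul_conj, Complex.normSq_eq_norm_sq]
  push_cast
  rfl

theorem norm_phi_sq (x : ι → ℂ) : ‖phi (sq ι) x‖ = ∑ i, ‖x i‖ ^ 2 := by
  rw [phi_sq, Complex.norm_real, Real.norm_of_nonneg (Finset.sum_nonneg fun _ _ => by positivity)]

theorem biHom_sq : BiHom (sq ι) 1 1 := by
  classical
  intro s hs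
  have h1 : ∃ i : ι, s = Finsupp.single (Sum.inl i) 1 + Finsupp.single (Sum.inr i) 1 := by
    by_contra hcon
    push Not at hcon
    rw [MvPolynomial.mem_support_iff] at hs
    apply hs
    unfold sq
    rw [MvPolynomial.coeff_sum]
    refine Finset.sum_eq_zero fun i _ => ?_
    have h2 : (MvPolynomial.X (Sum.inl i) * MvPolynomial.X (Sum.inr i) : MvPolynomial (ι ⊕ ι) ℤ) =
        MvPolynomial.monomial (Finsupp.single (Sum.inl i) 1 + Finsupp.single (Sum.inr i) 1) 1 := by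
      rw [MvPolynomial.X, MvPolynomial.X, MvPolynomial.monomial_mul, mul_one]
    rw [h2, MvPolynomial.coeff_monomial, if_neg]
    exact fun h3 => hcon i h3.symm
  obtain ⟨i, rfl⟩ := h1
  constructor
  · simp [Finsupp.single_apply]
  · simp [Finsupp.single_apply]

theorem ell_sq : Ell (sq ι) := by
  intro x hx h0
  have h1 := norm_phi_sq x
  rw [h0, norm_zero] at h1
  obtain ⟨i, hi⟩ := Function.ne_iff.mp hx
  have h2 : 0 < ∑ i, ‖x i‖ ^ 2 := Finset.sum_pos' (fun _ _ => by positivity)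
    ⟨i, Finset.mem_univ i, by have := norm_pos_iff.mpr hi; positivity⟩
  linarith

theorem norm_tv_sq {k : ℕ} (P : ι → MvPolynomial (Fin k) ℤ) (t : Fin k → ℝ) :
    ‖tv (Fk (sq ι) P) t‖ = ∑ i, ‖tv (P i) t‖ ^ 2 := by
  rw [norm_Fk (sq ι) biHom_sq, norm_phi_sq]

/-- concavity of the logarithm -/
theorem gibbs (S : Finset ι) (hS : S.Nonempty) (q x : ι → ℝ) (hq : ∀ i ∈ S, 0 < q i)
    (hsum : ∑ i ∈ S, q i = 1) (hx : ∀ i ∈ S, 0 < x i) :
    (∑ i ∈ S, q i * (2 * Real.log (x i) - Real.log (q i))) ≤ Real.log (∑ i ∈ S, x i ^ 2) := by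
  have h3 : ∀ i ∈ S, q i * (2 * Real.log (x i) - Real.log (q i)) =
      q i • Real.log (x i ^ 2 / q i) := by
    intro i hi
    have h4 := hx i hi
    rw [Real.log_div (by positivity) (hq i hi).ne', Real.log_pow, smul_eq_mul]
    push_cast
    ring
  rw [Finset.sum_congr rfl h3]
  have h5 := strictConcaveOn_log_Ioi.concaveOn.le_map_sum (t := S) (w := q)
    (p := fun i => x i ^ 2 / q i) (fun i hi => (hq i hi).le) hsum
    (fun i hi => by
      have h4 := hx i hi
      have := hq i hi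
      exact Set.mem_Ioi.mpr (by positivity))
  refine h5.trans (le_of_eq ?_)
  congr 1
  refine Finset.sum_congr rfl fun i hi => ?_
  rw [smul_eq_mul]
  have := (hq i hi).ne'
  field_simp

theorem cube_const (k : ℕ) (c : ℝ) : (∫ _ in Set.Icc (0 : Fin k → ℝ) 1, c) = c := by
  rw [setIntegral_const]
  simp only [measureReal_def,
    Real.volume_Icc_pi_toReal (show (0 : Fin k → ℝ) ≤ 1 from fun _ => zero_le_one)]
  simp

theorem int_term {k : ℕ} (P : MvPolynomial (Fin k) ℤ) (hP : P ≠ 0) (q c : ℝ) :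
    (∫ t in Set.Icc (0 : Fin k → ℝ) 1, q * (2 * Real.log ‖tv P t‖ - c)) =
      q * (2 * Real.log (mM P) - c) := by
  rw [integral_const_mul, integral_sub ((F_integrable hP).const_mul 2)
    (integrable_const _), integral_const_mul, ← log_mM, cube_const]

theorem integrable_term {k : ℕ} (P : MvPolynomial (Fin k) ℤ) (hP : P ≠ 0) (q c : ℝ) :
    Integrable (fun t => q * (2 * Real.log ‖tv P t‖ - c))
      ((volume : Measure (Fin k → ℝ)).restrict (Set.Icc (0 : Fin k → ℝ) 1)) :=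
  ((((F_integrable hP).const_mul 2).sub (integrable_const _)).const_mul _)

theorem log_sum_le {k : ℕ} (P : ι → MvPolynomial (Fin k) ℤ) (S : Finset ι) (hne : S.Nonempty)
    (hmem : ∀ i ∈ S, P i ≠ 0) (q : ι → ℝ) (hq : ∀ i ∈ S, 0 < q i) (hsum : ∑ i ∈ S, q i = 1) :
    (∑ i ∈ S, q i * (2 * Real.log (mM (P i)) - Real.log (q i))) ≤
      Real.log (mM (Fk (sq ι) P)) := by
  obtain ⟨i0, hi0⟩ := hne
  have hF := Fk_ne_zero (sq ι) biHom_sq ell_sq P ⟨i0, hmem i0 hi0⟩
  have h1 : (∑ i ∈ S, q i * (2 * Real.log (mM (P i)) - Real.log (q i))) =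
      ∫ t in Set.Icc (0 : Fin k → ℝ) 1,
        ∑ i ∈ S, q i * (2 * Real.log ‖tv (P i) t‖ - Real.log (q i)) := by
    rw [integral_finset_sum S fun i hi => integrable_term (P i) (hmem i hi) _ _]
    exact Finset.sum_congr rfl fun i hi => (int_term (P i) (hmem i hi) _ _).symm
  rw [h1, log_mM]
  refine integral_mono_ae (integrable_finset_sum S fun i hi => integrable_term (P i) (hmem i hi) _ _)
    (F_integrable hF) ?_
  have hall : ∀ᵐ t ∂((volume : Measure (Fin k → ℝ)).restrict (Set.Icc (0 : Fin k → ℝ) 1)),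
      ∀ i ∈ S, tv (P i) t ≠ 0 := by
    rw [ae_all_iff]
    intro i
    by_cases hi : i ∈ S
    · exact (F_zero_null (hmem i hi)).mono fun t ht _ => ht
    · exact Eventually.of_forall fun t h => absurd h hi
  filter_upwards [hall] with t ht
  rw [norm_tv_sq]
  have hx : ∀ i ∈ S, 0 < ‖tv (P i) t‖ := fun i hi => norm_pos_iff.mpr (ht i hi)
  refine (gibbs S ⟨i0, hi0⟩ q (fun i => ‖tv (P i) t‖) hq hsum hx).trans ?_
  refine Real.log_le_log (Finset.sum_pos (fun i hi => ?_) ⟨i0, hi0⟩) ?_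
  · have h4 := hx i hi
    positivity
  · exact Finset.sum_le_sum_of_subset_of_nonneg (Finset.subset_univ _) fun _ _ _ => by positivity

/-- The measure of a sum of hermitian squares is at least the sum of the squares of the measures. -/
theorem sum_sq_le {k : ℕ} (P : ι → MvPolynomial (Fin k) ℤ) (hP : ∃ i, P i ≠ 0)
    (S : Finset ι) (hmem : ∀ i, i ∈ S ↔ P i ≠ 0) :
    (∑ i ∈ S, mM (P i) ^ 2) ≤ mM (Fk (sq ι) P) := by
  obtain ⟨i0, hi0⟩ := hP
  have hMpos : ∀ i, 0 < mM (P i) := fun i => Real.exp_pos _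
  obtain ⟨W, hW⟩ : ∃ W, W = ∑ i ∈ S, mM (P i) ^ 2 := ⟨_, rfl⟩
  rw [← hW]
  have hWpos : 0 < W := by
    rw [hW]
    exact Finset.sum_pos (fun i _ => by have := hMpos i; positivity) ⟨i0, (hmem i0).mpr hi0⟩
  have hqsum : ∑ i ∈ S, mM (P i) ^ 2 / W = 1 := by
    rw [← Finset.sum_div, ← hW, div_self hWpos.ne']
  have h1 := log_sum_le P S ⟨i0, (hmem i0).mpr hi0⟩ (fun i hi => (hmem i).mp hi)
    (fun i => mM (P i) ^ 2 / W) (fun i _ => by have := hMpos i; positivity) hqsum
  have h2 : ∀ i ∈ S, mM (P i) ^ 2 / W * (2 * Real.log (mM (P i)) - Real.log (mM (P i) ^ 2 / W)) =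
      mM (P i) ^ 2 / W * Real.log W := by
    intro i _
    have h3 := hMpos i
    rw [Real.log_div (by positivity) hWpos.ne', Real.log_pow]
    push_cast
    ring
  rw [Finset.sum_congr rfl h2, ← Finset.sum_mul, hqsum, one_mul] at h1
  exact (Real.log_le_log_iff hWpos (Real.exp_pos _)).mp h1

theorem card_le {k : ℕ} (P : ι → MvPolynomial (Fin k) ℤ) (hP : ∃ i, P i ≠ 0)
    (S : Finset ι) (hmem : ∀ i, i ∈ S ↔ P i ≠ 0) :
    (S.card : ℝ) ≤ mM (Fk (sq ι) P) := by
  refine le_trans ?_ (sum_sq_le P hP S hmem)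
  rw [← nsmul_one, ← Finset.sum_const]
  refine Finset.sum_le_sum fun i hi => ?_
  have h1 := one_le_mM (P i) ((hmem i).mp hi)
  nlinarith

theorem exists_supp {k : ℕ} (P : ι → MvPolynomial (Fin k) ℤ) :
    ∃ S : Finset ι, ∀ i, i ∈ S ↔ P i ≠ 0 := by
  classical
  exact ⟨Finset.univ.filter (fun i => P i ≠ 0), fun i => by simp⟩

/-- the measures of the sums of hermitian squares of coprime tuples -/
def SQ : Set ℝ := {x : ℝ | ∃ k : ℕ, 1 ≤ k ∧ ∃ (r : ℕ) (P : Fin r → MvPolynomial (Fin k) ℤ),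
  Cop P ∧ x = mM (Fk (sq (Fin r)) P)}

theorem mM_congr {k : ℕ} {A B : MvPolynomial (Fin k) ℤ} (h : ∀ t, ‖tv A t‖ = ‖tv B t‖) :
    mM A = mM B := by
  unfold mM
  simp only [h]

/-- zero members can be omitted and added -/
theorem resize {k r N : ℕ} (P : Fin r → MvPolynomial (Fin k) ℤ) (hP : Cop P)
    (S : Finset (Fin r)) (hmem : ∀ i, i ∈ S ↔ P i ≠ 0) (hN : S.card ≤ N) :
    ∃ Q : Fin N → MvPolynomial (Fin k) ℤ, Cop Q ∧ mM (Fk (sq (Fin r)) P) = mM (Fk (sq (Fin N)) Q) := by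
  classical
  obtain ⟨f⟩ : Nonempty (S ↪ Fin N) := by
    rw [Function.Embedding.nonempty_iff_card_le]
    simpa using hN
  set Q : Fin N → MvPolynomial (Fin k) ℤ := fun j =>
    if h : ∃ i : S, f i = j then P h.choose.1 else 0 with hQ
  have hQf : ∀ i : S, Q (f i) = P i.1 := by
    intro i
    have h : ∃ i' : S, f i' = f i := ⟨i, rfl⟩
    simp only [hQ, dif_pos h]
    rw [f.injective h.choose_spec]
  have hQ0 : ∀ j, (∀ i : S, f i ≠ j) → Q j = 0 := by
    intro j hj
    have h : ¬ ∃ i : S, f i = j := fun ⟨i, hi⟩ => hj i hi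
    simp only [hQ, dif_neg h]
  refine ⟨Q, ?_, ?_⟩
  · intro D hD
    refine hP D fun i => ?_
    by_cases hi : P i = 0
    · rw [hi]
      exact dvd_zero _
    · have := hD (f ⟨i, (hmem i).mpr hi⟩)
      rwa [hQf] at this
  · refine mM_congr fun t => ?_
    rw [norm_tv_sq, norm_tv_sq]
    have h1 : (∑ i, ‖tv (P i) t‖ ^ 2) = ∑ i ∈ S, ‖tv (P i) t‖ ^ 2 := by
      symm
      refine Finset.sum_subset (Finset.subset_univ _) fun i _ hi => ?_
      have : P i = 0 := by
        by_contra h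
        exact hi ((hmem i).mpr h)
      rw [this, tv_zero, norm_zero]
      norm_num
    have h2 : (∑ j, ‖tv (Q j) t‖ ^ 2) = ∑ j ∈ Finset.univ.map f, ‖tv (Q j) t‖ ^ 2 := by
      symm
      refine Finset.sum_subset (Finset.subset_univ _) fun j _ hj => ?_
      have : Q j = 0 := hQ0 j fun i hi => hj (by
        rw [Finset.mem_map]
        exact ⟨i, Finset.mem_univ i, hi⟩)
      rw [this, tv_zero, norm_zero]
      norm_num
    rw [h1, h2, Finset.sum_map, ← Finset.sum_attach S]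
    refine Finset.sum_congr rfl fun i _ => ?_
    rw [hQf]

theorem SQ_sub {x B : ℝ} (hx : x ∈ SQ) (hB : x ≤ B) {N : ℕ} (hN : B ≤ N) : x ∈ SF (sq (Fin N)) := by
  obtain ⟨k, hk, r, P, hP, rfl⟩ := hx
  obtain ⟨S, hmem⟩ := exists_supp P
  have h1 := card_le P hP.exists_ne S hmem
  have h2 : S.card ≤ N := by
    have : (S.card : ℝ) ≤ N := h1.trans (hB.trans hN)
    exact_mod_cast this
  obtain ⟨Q, hQ, hPQ⟩ := resize P hP S hmem h2
  exact ⟨k, hk, Q, hQ, hPQ⟩

theorem closed_SQ : IsClosed SQ := by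
  refine IsSeqClosed.isClosed ?_
  intro x μ hx hlim
  obtain ⟨B, hB⟩ := hlim.bddAbove_range
  obtain ⟨N, hN⟩ := exists_nat_ge (max B 1)
  have hN1 : 1 ≤ N := by
    have : (1 : ℝ) ≤ N := (le_max_right _ _).trans hN
    exact_mod_cast this
  have : Nonempty (Fin N) := ⟨⟨0, hN1⟩⟩
  have h1 : ∀ n, x n ∈ SF (sq (Fin N)) := fun n =>
    SQ_sub (hx n) (hB ⟨n, rfl⟩) ((le_max_left _ _).trans hN)
  obtain ⟨k, hk, P, hP, hμ⟩ := (closed_SF (sq (Fin N)) biHom_sq ell_sq (by norm_num)).mem_of_tendsto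
    hlim (Eventually.of_forall h1)
  exact ⟨k, hk, N, P, hP, hμ⟩

/-- the values are `1` or at least `2` -/
theorem one_or_two {x : ℝ} (hx : x ∈ SQ) : x = 1 ∨ 2 ≤ x := by
  classical
  obtain ⟨k, hk, r, P, hP, rfl⟩ := hx
  obtain ⟨S, hmem⟩ := exists_supp P
  have h1 := card_le P hP.exists_ne S hmem
  by_cases hc : 2 ≤ S.card
  · right
    refine le_trans ?_ h1
    exact_mod_cast hc
  · left
    obtain ⟨i0, hi0⟩ := hP.exists_ne
    have hone : ∀ i, P i ≠ 0 → i = i0 := by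
      intro i hi
      by_contra hne
      apply hc
      have h3 : ({i, i0} : Finset (Fin r)) ⊆ S := by
        intro j hj
        rcases Finset.mem_insert.mp hj with rfl | hj
        · exact (hmem _).mpr hi
        · rw [Finset.mem_singleton.mp hj]
          exact (hmem _).mpr hi0
      have h4 := Finset.card_le_card h3
      rwa [Finset.card_pair hne] at h4
    have hu : IsUnit (P i0) := by
      refine hP (P i0) fun i => ?_
      by_cases hi : P i = 0
      · rw [hi]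
        exact dvd_zero _
      · rw [hone i hi]
    obtain ⟨B, hB⟩ := hu.exists_right_inv
    have hval : ∀ t, ‖tv (P i0) t‖ = 1 := by
      intro t
      rw [MvPolynomial.isUnit_iff_eq_C_of_isReduced] at hu
      obtain ⟨c, hc, hcP⟩ := hu
      rw [hcP]
      have h5 : tv (MvPolynomial.C c : MvPolynomial (Fin k) ℤ) t = (c : ℂ) := by simp [tv]
      rw [h5]
      rcases Int.isUnit_iff.mp hc with rfl | rfl
      · simp
      · simp
    unfold mM
    have h6 : ∀ t, ‖tv (Fk (sq (Fin r)) P) t‖ = 1 := by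
      intro t
      rw [norm_tv_sq, Finset.sum_eq_single i0]
      · rw [hval t]
        norm_num
      · intro i _ hi
        have : P i = 0 := by
          by_contra h
          exact hi (hone i h)
        rw [this, tv_zero, norm_zero]
        norm_num
      · intro h
        exact absurd (Finset.mem_univ i0) h
    simp only [h6]
    simp

/-- companions -/
theorem SQ_LL {x : ℝ} (hx : x ∈ SQ) : x ∈ LL (2 * Real.log x) := by
  obtain ⟨k, hk, r, P, hP, rfl⟩ := hx
  obtain ⟨S, hmem⟩ := exists_supp P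
  obtain ⟨N, hN⟩ : ∃ N, N = S.card := ⟨_, rfl⟩
  obtain ⟨Q, hQ, hPQ⟩ := resize P hP S hmem hN.symm.le
  have h1 := card_le P hP.exists_ne S hmem
  rw [← hN] at h1
  have hN1 : 1 ≤ N := by
    obtain ⟨i, _⟩ := hQ.exists_ne
    have := i.2
    omega
  have hN1' : (1 : ℝ) ≤ N := by exact_mod_cast hN1
  rw [hPQ] at h1 ⊢
  have h2 := mem_LL_of_bound hk (sq (Fin N)) biHom_sq ell_sq (N : ℝ) hN1' (by
    intro x
    rw [norm_phi_sq]
    have h3 := sq_sum_le_card_mul_sum_sq (s := (Finset.univ : Finset (Fin N))) (f := fun i => ‖x i‖)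
    simpa using h3) Q hQ
  refine LL_mono ?_ h2
  have h4 : Real.log N ≤ Real.log (mM (Fk (sq (Fin N)) Q)) := Real.log_le_log (by linarith) h1
  linarith

end

end Pool.Agent.W5h6.HS
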